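import Mathlib
import Pool.Agent.Results.MP_e7abc8_al.NonHopfian

/-!
# Separating algebras and the polynomials `h_m`
-/

set_option autoImplicit false

namespace Pool.Agent.Y573.RF

open FreeNonUnitalNonAssocAlgebra
open Pool.Agent.Results.MP_e7abc8_al.NonHopfian

universe u

noncomputable section

section Poly

variable {A B : Type*} [NonUnitalNonAssocRing A] [NonUnitalNonAssocRing B]

/-- `m`-fold right multiplication of `y` by `x`. -/
def rit (x : A) : ℕ → A → A
  | 0, y => y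
  | m + 1, y => rit x m y * x

/-- The polynomial `q(x) = x(x(x(x(xx) - (xx)x)))`. -/
def qp (x : A) : A := x * (x * (x * (x * (x * x) - (x * x) * x)))

/-- The polynomial `h_m(x) = x R_x^m(q(x))`. -/
def hp (m : ℕ) (x : A) : A := x * rit x m (qp x)

theorem map_rit {G : Type*} [FunLike G A B] [NonUnitalRingHomClass G A B] (φ : G) (x : A)
    (m : ℕ) (y : A) : φ (rit x m y) = rit (φ x) m (φ y) := by
  induction m with
  | zero => rfl
  | succ m ih => rw [rit, rit, map_mul, ih]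

theorem map_qp {G : Type*} [FunLike G A B] [NonUnitalRingHomClass G A B] (φ : G) (x : A) :
    φ (qp x) = qp (φ x) := by
  simp only [qp, map_mul, map_sub]

theorem map_hp {G : Type*} [FunLike G A B] [NonUnitalRingHomClass G A B] (φ : G) (m : ℕ)
    (x : A) : φ (hp m x) = hp m (φ x) := by
  rw [hp, hp, map_mul, map_rit, map_qp]

theorem rit_zero (x : A) (m : ℕ) : rit x m (0 : A) = 0 := by
  induction m with
  | zero => rfl
  | succ m ih => rw [rit, ih, zero_mul]

theorem rpow_zero' (k : ℕ) : rpow (0 : A) k = 0 := by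
  cases k with
  | zero => rfl
  | succ k => rw [rpow, zero_mul]

/-- If `(xx)(xx) = 0` for all `x` then `g (f x) = x`. -/
theorem gf_of_sq (h : ∀ x : A, (x * x) * (x * x) = 0) (k : ℕ) (x : A) : g k (f k x) = x := by
  have hE : ∀ y : A, E k y = 0 := by
    intro y
    rw [E, h y, rpow_zero']
  have hc : ∀ y : A, c k y = 0 := by
    intro y
    rw [c, hE]
    simp
  rw [g, hE, f, hc]
  simp

end Poly

section ModelPart

variable {F : Type} [Field F]

theorem qp_model (x : Model.{u} F) : qp x = 0 := by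
  obtain ⟨a, v₁, v₂, v₃, rfl⟩ := mk_surj x
  rw [qp]
  simp only [mk_mul, mk_sub, mk_zero]
  have h : a * (a * a) - a * a * a = 0 := by ring
  rw [h]
  simp

theorem hp_model (m : ℕ) (x : Model.{u} F) : hp m x = 0 := by
  rw [hp, qp_model, rit_zero, mul_zero]

end ModelPart

section Sep

variable (F : Type) [Field F]

/-- The weighted shift. -/
def wop (M : ℕ → Prop) [DecidablePred M] : Seq.{u} F →ₗ[F] Seq.{u} F where
  toFun w n := if 1 ≤ n.down ∧ M (n.down - 1) then w ⟨n.down - 1⟩ else 0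
  map_add' := by
    intro v w
    funext n
    by_cases h : 1 ≤ n.down ∧ M (n.down - 1) <;> simp [h]
  map_smul' := by
    intro t w
    funext n
    by_cases h : 1 ≤ n.down ∧ M (n.down - 1) <;> simp [h]

/-- The standard basis sequences. -/
def del (i : ℕ) : Seq.{u} F := fun n => if n.down = i then 1 else 0

variable {F}

theorem wop_del (M : ℕ → Prop) [DecidablePred M] (i : ℕ) (h : M i) :
    wop F M (del.{u} F i) = del F (i + 1) := by
  funext n
  change (if 1 ≤ n.down ∧ M (n.down - 1) then (if n.down - 1 = i then (1 : F) else 0) else 0) =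
    if n.down = i + 1 then 1 else 0
  by_cases h1 : n.down = i + 1
  · have h2 : n.down - 1 = i := by omega
    rw [if_pos h1, h2, if_pos ⟨by omega, h⟩, if_pos rfl]
  · rw [if_neg h1]
    by_cases h3 : 1 ≤ n.down ∧ M (n.down - 1)
    · rw [if_pos h3, if_neg (by omega)]
    · rw [if_neg h3]

theorem wop_del_not (M : ℕ → Prop) [DecidablePred M] (i : ℕ) (h : ¬ M i) :
    wop F M (del.{u} F i) = 0 := by
  funext n
  change (if 1 ≤ n.down ∧ M (n.down - 1) then (if n.down - 1 = i then (1 : F) else 0) else 0) = 0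
  by_cases h3 : 1 ≤ n.down ∧ M (n.down - 1)
  · rw [if_pos h3, if_neg]
    rintro rfl
    exact h h3.2
  · rw [if_neg h3]

/-- The left mask. -/
abbrev ML (m : ℕ) : ℕ → Prop := fun i => i ≤ 2 ∨ i = m + 3

/-- The right mask. -/
abbrev MR (m : ℕ) : ℕ → Prop := fun i => 3 ≤ i ∧ i < m + 3

theorem L3 (m : ℕ) (hm : 1 ≤ m) (v : Seq.{u} F) :
    wop F (ML m) (wop F (ML m) (wop F (ML m) v)) = v ⟨0⟩ • del F 3 := by
  funext n
  change (if 1 ≤ n.down ∧ (n.down - 1 ≤ 2 ∨ n.down - 1 = m + 3) then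
    (if 1 ≤ n.down - 1 ∧ (n.down - 1 - 1 ≤ 2 ∨ n.down - 1 - 1 = m + 3) then
    (if 1 ≤ n.down - 1 - 1 ∧ (n.down - 1 - 1 - 1 ≤ 2 ∨ n.down - 1 - 1 - 1 = m + 3) then
      v ⟨n.down - 1 - 1 - 1⟩ else 0) else 0) else 0) = v ⟨0⟩ * (if n.down = 3 then 1 else 0)
  by_cases h : n.down = 3
  · have h1 : n.down - 1 - 1 - 1 = 0 := by omega
    rw [if_pos ⟨by omega, by omega⟩, if_pos ⟨by omega, by omega⟩, if_pos ⟨by omega, by omega⟩,
      if_pos h, h1, mul_one]
  · rw [if_neg h, mul_zero]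
    by_cases h1 : 1 ≤ n.down ∧ (n.down - 1 ≤ 2 ∨ n.down - 1 = m + 3)
    · rw [if_pos h1]
      by_cases h2 : 1 ≤ n.down - 1 ∧ (n.down - 1 - 1 ≤ 2 ∨ n.down - 1 - 1 = m + 3)
      · rw [if_pos h2]
        by_cases h3 : 1 ≤ n.down - 1 - 1 ∧
            (n.down - 1 - 1 - 1 ≤ 2 ∨ n.down - 1 - 1 - 1 = m + 3)
        · exfalso
          omega
        · rw [if_neg h3]
      · rw [if_neg h2]
    · rw [if_neg h1]

theorem R0 (v : Seq.{u} F) : wop F (MR 0) v = 0 := by
  funext n
  change (if 1 ≤ n.down ∧ (3 ≤ n.down - 1 ∧ n.down - 1 < 0 + 3) then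
      v ⟨n.down - 1⟩ else 0) = 0
  rw [if_neg]
  omega

/-- The separating algebra `A_m`: basis `a, b, p_0, p_1, ...` with `a a = b`, `a b = p_0`,
`a p_i = p_{i+1}` for `i ≤ 2` or `i = m + 3`, `p_i a = p_{i+1}` for `3 ≤ i < m + 3`, and all
other products of basis elements zero. -/
def Sep (F : Type) (_m : ℕ) : Type u := F × F × Seq.{u} F

instance (m : ℕ) : AddCommGroup (Sep.{u} F m) :=
  inferInstanceAs (AddCommGroup (F × F × Seq.{u} F))

instance (m : ℕ) : Module F (Sep.{u} F m) :=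
  inferInstanceAs (Module F (F × F × Seq.{u} F))

/-- Constructor for elements of `A_m`. -/
def smk (m : ℕ) (a b : F) (w : Seq.{u} F) : Sep.{u} F m := (a, b, w)

omit [Field F] in
theorem smk_surj {m : ℕ} (x : Sep.{u} F m) : ∃ a b w, x = smk m a b w :=
  ⟨x.1, x.2.1, x.2.2, rfl⟩

theorem smk_add (m : ℕ) (a b a' b' : F) (w w' : Seq.{u} F) :
    smk m a b w + smk m a' b' w' = smk m (a + a') (b + b') (w + w') := rfl

theorem smk_sub (m : ℕ) (a b a' b' : F) (w w' : Seq.{u} F) :
    smk m a b w - smk m a' b' w' = smk m (a - a') (b - b') (w - w') := rfl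

theorem smk_smul (m : ℕ) (t a b : F) (w : Seq.{u} F) :
    t • smk m a b w = smk m (t * a) (t * b) (t • w) := rfl

theorem smk_zero (m : ℕ) : (0 : Sep.{u} F m) = smk m 0 0 0 := rfl

instance (m : ℕ) : Mul (Sep.{u} F m) where
  mul x y := smk m 0 (x.1 * y.1)
    ((x.1 * y.2.1) • del F 0 + x.1 • wop F (ML m) y.2.2 + y.1 • wop F (MR m) x.2.2)

theorem smk_mul (m : ℕ) (a b a' b' : F) (w w' : Seq.{u} F) :
    smk m a b w * smk m a' b' w' = smk m 0 (a * a')
      ((a * b') • del F 0 + a • wop F (ML m) w' + a' • wop F (MR m) w) := rfl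

instance (m : ℕ) : NonUnitalNonAssocRing (Sep.{u} F m) where
  left_distrib := by
    intro x y z
    obtain ⟨a, b, w, rfl⟩ := smk_surj x
    obtain ⟨a', b', w', rfl⟩ := smk_surj y
    obtain ⟨a'', b'', w'', rfl⟩ := smk_surj z
    simp only [smk_add, smk_mul, mul_add, smul_add, add_smul, map_add, add_zero]
    congr 1
    abel
  right_distrib := by
    intro x y z
    obtain ⟨a, b, w, rfl⟩ := smk_surj x
    obtain ⟨a', b', w', rfl⟩ := smk_surj y
    obtain ⟨a'', b'', w'', rfl⟩ := smk_surj z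
    simp only [smk_add, smk_mul, add_mul, smul_add, add_smul, map_add, add_zero]
    congr 1
    abel
  zero_mul := by
    intro x
    obtain ⟨a, b, w, rfl⟩ := smk_surj x
    rw [smk_zero, smk_mul]
    simp
  mul_zero := by
    intro x
    obtain ⟨a, b, w, rfl⟩ := smk_surj x
    rw [smk_zero, smk_mul]
    simp

instance (m : ℕ) : IsScalarTower F (Sep.{u} F m) (Sep.{u} F m) where
  smul_assoc := by
    intro t x y
    obtain ⟨a, b, w, rfl⟩ := smk_surj x
    obtain ⟨a', b', w', rfl⟩ := smk_surj y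
    simp only [smul_eq_mul, smk_smul, smk_mul, map_smul, smul_add, smul_smul, mul_assoc,
      mul_zero, mul_comm a' t]

instance (m : ℕ) : SMulCommClass F (Sep.{u} F m) (Sep.{u} F m) where
  smul_comm := by
    intro t x y
    obtain ⟨a, b, w, rfl⟩ := smk_surj x
    obtain ⟨a', b', w', rfl⟩ := smk_surj y
    simp only [smul_eq_mul, smk_smul, smk_mul, map_smul, smul_add, smul_smul,
      mul_zero, mul_left_comm a t, mul_comm a t]

theorem sep_sq {m : ℕ} (x : Sep.{u} F m) : (x * x) * (x * x) = 0 := by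
  obtain ⟨a, b, w, rfl⟩ := smk_surj x
  rw [smk_mul, smk_mul, smk_zero]
  simp

theorem smk_mul_chain (m : ℕ) (a b : F) (w v : Seq.{u} F) :
    smk m a b w * smk m 0 0 v = smk m 0 0 (a • wop F (ML m) v) := by
  rw [smk_mul]
  simp

theorem chain_mul_smk (m : ℕ) (a b : F) (w v : Seq.{u} F) :
    smk m 0 0 v * smk m a b w = smk m 0 0 (a • wop F (MR m) v) := by
  rw [smk_mul]
  simp

/-- `q(x)` for `x = α a + β b + w` is `α³ L³ v` for some `v`, where `v = δ_0` if `x = a`. -/
theorem qp_sep (m : ℕ) (a b : F) (w : Seq.{u} F) : ∃ v : Seq.{u} F,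
    qp (smk m a b w) = smk m 0 0
      ((a * a * a) • wop F (ML m) (wop F (ML m) (wop F (ML m) v))) ∧
    (a = 1 → b = 0 → w = 0 → v = del F 0) := by
  refine ⟨(a * (a * a)) • del F 0 + a • wop F (ML m)
      ((a * b) • del F 0 + a • wop F (ML m) w + a • wop F (MR m) w) -
      a • wop F (MR m) ((a * b) • del F 0 + a • wop F (ML m) w + a • wop F (MR m) w), ?_, ?_⟩
  · rw [qp, smk_mul]
    set U := (a * b) • del F 0 + a • wop F (ML m) w + a • wop F (MR m) w with hU
    rw [smk_mul, smk_mul, smk_sub]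
    have e1 : a * 0 - 0 * a = (0 : F) := by ring
    rw [e1, sub_zero, smk_mul_chain, smk_mul_chain, smk_mul_chain]
    simp only [map_smul, smul_smul, mul_assoc, zero_smul, zero_mul, add_zero, zero_add]
  · rintro rfl rfl rfl
    simp

theorem rit_del (m : ℕ) (a b : F) (w : Seq.{u} F) (n : ℕ) (t : F) :
    (n ≤ m → ∃ t' : F, rit (smk m a b w) n (smk m 0 0 (t • del F 3)) =
      smk m 0 0 (t' • del F (n + 3)) ∧ (a = 1 → t' = t)) ∧
    (m < n → rit (smk m a b w) n (smk m 0 0 (t • del F 3)) = 0) := by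
  induction n with
  | zero => exact ⟨fun _ => ⟨t, rfl, fun _ => rfl⟩, fun h => absurd h (by omega)⟩
  | succ n ih =>
    constructor
    · intro hn
      obtain ⟨t', h1, h2⟩ := ih.1 (by omega)
      refine ⟨a * t', ?_, ?_⟩
      · rw [rit, h1, chain_mul_smk, map_smul, wop_del (MR m) (n + 3) ⟨by omega, by omega⟩,
          smul_smul]
      · intro ha
        rw [h2 ha, ha, one_mul]
    · intro hn
      by_cases h : m < n
      · rw [rit, ih.2 h, zero_mul]
      · have hnm : n = m := by omega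
        obtain ⟨t', h1, -⟩ := ih.1 (by omega)
        rw [rit, h1, chain_mul_smk, map_smul, wop_del_not (MR m) (n + 3) (by
          rintro ⟨h3, h4⟩
          omega)]
        rw [smul_zero, smul_zero, smk_zero]

theorem hp_sep_ne_zero (m : ℕ) : hp m (smk.{u} m (1 : F) 0 0) ≠ 0 := by
  obtain ⟨v, hv, hv'⟩ := qp_sep.{u} m (1 : F) 0 0
  have h0 := hv' rfl rfl rfl
  subst h0
  rw [hp, hv]
  have hL : wop F (ML m) (wop F (ML m) (wop F (ML m) (del.{u} F 0))) = del F 3 := by
    rw [wop_del (ML m) 0 (Or.inl (by omega)), wop_del (ML m) 1 (Or.inl (by omega)),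
      wop_del (ML m) 2 (Or.inl (by omega))]
  rw [hL]
  obtain ⟨t', h1, h2⟩ := (rit_del m (1 : F) 0 (0 : Seq.{u} F) m (1 * 1 * 1)).1 le_rfl
  rw [h1, smk_mul_chain, map_smul, wop_del (ML m) (m + 3) (Or.inr rfl), h2 rfl]
  intro h
  have h3 := congrArg (fun t : Sep.{u} F m => t.2.2 ⟨m + 3 + 1⟩) h
  change (1 : F) * ((1 * 1 * 1) * (if m + 3 + 1 = m + 3 + 1 then 1 else 0)) = 0 at h3
  rw [if_pos rfl] at h3
  simp at h3

theorem hp_sep_zero {m n : ℕ} (hnm : n ≠ m) (x : Sep.{u} F m) : hp n x = 0 := by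
  obtain ⟨a, b, w, rfl⟩ := smk_surj x
  obtain ⟨v, hv, -⟩ := qp_sep m a b w
  rw [hp, hv]
  by_cases hm : m = 0
  · subst hm
    obtain ⟨n', rfl⟩ : ∃ n', n = n' + 1 := ⟨n - 1, by omega⟩
    have key : ∀ (k : ℕ) (u : Seq.{u} F), ∃ u' : Seq.{u} F,
        rit (smk 0 a b w) k (smk 0 0 0 u) = smk 0 0 0 u' := by
      intro k
      induction k with
      | zero => exact fun u => ⟨u, rfl⟩
      | succ k ih =>
        intro u
        obtain ⟨u', hu'⟩ := ih u
        exact ⟨_, by rw [rit, hu', chain_mul_smk]⟩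
    obtain ⟨u', hu'⟩ := key n' _
    rw [rit, hu', chain_mul_smk, R0, smul_zero, ← smk_zero, mul_zero]
  · rw [L3 m (by omega) v, smul_smul]
    rcases lt_or_gt_of_ne hnm with h | h
    · obtain ⟨t', h1, -⟩ := (rit_del m a b w n (a * a * a * v ⟨0⟩)).1 h.le
      rw [h1, smk_mul_chain, map_smul, wop_del_not (ML m) (n + 3) (by
        rintro (h3 | h3)
        · omega
        · omega)]
      rw [smul_zero, smul_zero, smk_zero]
    · rw [(rit_del m a b w n (a * a * a * v ⟨0⟩)).2 h, mul_zero]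

end Sep

end

end Pool.Agent.Y573.RF
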